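import Mathlib

/-!
# Closed symplectic 4-manifolds and their Chern numbers: definitions for the final statement

`X` is a manifold modelled on `V = ℂ × ℂ` (a real vector space of dimension 4). Tensor fields are given in all charts
of the atlas, with the usual transformation rule.
-/

open Complex
open scoped ContDiff Manifold Topology

namespace Pool.Agent.Helper11.SX

noncomputable section

/-- the model space -/
abbrev V := ℂ × ℂ

/-- the standard real basis of `V` -/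
def bas : Fin 4 → V := ![(1, 0), (I, 0), (0, 1), (0, I)]

section charts

variable {X : Type} [TopologicalSpace X]

/-- change of charts -/
def tr (e e' : OpenPartialHomeomorph X V) : V → V := fun u => e' (e.symm u)

/-- the domain of the change of charts -/
def ov (e e' : OpenPartialHomeomorph X V) : Set V := e.target ∩ e.symm ⁻¹' e'.source

end charts

variable (X : Type) [TopologicalSpace X] [ChartedSpace V X]

/-- smooth 1-forms -/
structure OneForm where
  val : OpenPartialHomeomorph X V → V → V →L[ℝ] ℝ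
  smooth : ∀ e ∈ atlas V X, ContDiffOn ℝ ∞ (val e) e.target
  compat : ∀ e ∈ atlas V X, ∀ e' ∈ atlas V X, ∀ u ∈ ov e e', ∀ v,
    val e u v = val e' (tr e e' u) (fderiv ℝ (tr e e') u v)

/-- smooth 2-forms -/
structure TwoForm where
  val : OpenPartialHomeomorph X V → V → V →L[ℝ] V →L[ℝ] ℝ
  smooth : ∀ e ∈ atlas V X, ContDiffOn ℝ ∞ (val e) e.target
  alt : ∀ e ∈ atlas V X, ∀ u ∈ e.target, ∀ v, val e u v v = 0
  compat : ∀ e ∈ atlas V X, ∀ e' ∈ atlas V X, ∀ u ∈ ov e e', ∀ v w,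
    val e u v w = val e' (tr e e' u) (fderiv ℝ (tr e e') u v) (fderiv ℝ (tr e e') u w)

/-- smooth almost complex structures -/
structure ACS where
  val : OpenPartialHomeomorph X V → V → V →L[ℝ] V
  smooth : ∀ e ∈ atlas V X, ContDiffOn ℝ ∞ (val e) e.target
  sq : ∀ e ∈ atlas V X, ∀ u ∈ e.target, ∀ v, val e u (val e u v) = -v
  compat : ∀ e ∈ atlas V X, ∀ e' ∈ atlas V X, ∀ u ∈ ov e e', ∀ v,
    val e' (tr e e' u) (fderiv ℝ (tr e e') u v) = fderiv ℝ (tr e e') u (val e u v)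

variable {X}

/-- closed 2-forms -/
def TwoForm.Closed (Ω : TwoForm X) : Prop :=
  ∀ e ∈ atlas V X, ∀ u ∈ e.target, ∀ a b c,
    fderiv ℝ (Ω.val e) u a b c + fderiv ℝ (Ω.val e) u b c a + fderiv ℝ (Ω.val e) u c a b = 0

/-- `α ∧ β` as a multiple of the standard volume form, for 2-forms on the vector space `V` -/
def wed (α β : V →L[ℝ] V →L[ℝ] ℝ) : ℝ :=
  α (bas 0) (bas 1) * β (bas 2) (bas 3) - α (bas 0) (bas 2) * β (bas 1) (bas 3)
    + α (bas 0) (bas 3) * β (bas 1) (bas 2) + α (bas 1) (bas 2) * β (bas 0) (bas 3)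
    - α (bas 1) (bas 3) * β (bas 0) (bas 2) + α (bas 2) (bas 3) * β (bas 0) (bas 1)

/-- `Ω` tames `J`. Then `Ω` is nondegenerate, and the orientation of `J` is that of `Ω ∧ Ω`. -/
def Tames (Ω : TwoForm X) (J : ACS X) : Prop :=
  ∀ e ∈ atlas V X, ∀ u ∈ e.target, ∀ v, v ≠ 0 → 0 < Ω.val e u v (J.val e u v)

/-- There are three closed 2-forms `α₁, α₂, α₃` with `αᵢ ∧ αⱼ = δᵢⱼ μ`, where the 4-form `μ` is nonnegative for the
orientation of `Ω ∧ Ω` and not identically zero. So `(∑ cᵢ αᵢ)²` has positive integral for every `c ≠ 0`, and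
`b⁺ ≥ 3`. -/
def BPlusThree (Ω : TwoForm X) : Prop :=
  ∃ α : Fin 3 → TwoForm X, (∀ i, (α i).Closed) ∧
    (∀ e ∈ atlas V X, ∀ u ∈ e.target, ∀ i j,
      (i ≠ j → wed ((α i).val e u) ((α j).val e u) = 0) ∧
      wed ((α i).val e u) ((α i).val e u) = wed ((α j).val e u) ((α j).val e u) ∧
      0 ≤ wed ((α i).val e u) ((α i).val e u) * wed (Ω.val e u) (Ω.val e u)) ∧
    ∃ e ∈ atlas V X, ∃ u ∈ e.target, wed ((α 0).val e u) ((α 0).val e u) ≠ 0

/-- The Euler characteristic of `X` is `k`, in the form of the theorem of Poincaré and Hopf: there is a 1-form with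
finitely many zeros, all nondegenerate, and the sum of their indices is `k`. -/
def EulerCount (X : Type) [TopologicalSpace X] [ChartedSpace V X] (k : ℤ) : Prop :=
  ∃ (β : OneForm X) (Z : Finset X) (σ : X → ℤ),
    (∀ p, p ∈ Z ↔ ∃ e ∈ atlas V X, p ∈ e.source ∧ β.val e (e p) = 0) ∧
    (∀ p ∈ Z, ∃ e ∈ atlas V X, p ∈ e.source ∧
      (Matrix.of fun i j => fderiv ℝ (β.val e) (e p) (bas i) (bas j)).det ≠ 0 ∧
      σ p = (SignType.sign (Matrix.of fun i j => fderiv ℝ (β.val e) (e p) (bas i) (bas j)).det : ℤ)) ∧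
    ∑ p ∈ Z, σ p = k

/-- `τ` is a nonzero form of type (2,0) at the point `u` of the chart `e` -/
structure IsTop (J : ACS X) (e : OpenPartialHomeomorph X V) (u : V) (τ : V →L[ℝ] V →L[ℝ] ℂ) : Prop where
  alt : ∀ v, τ v v = 0
  lin : ∀ v w, τ (J.val e u v) w = I * τ v w
  ne : τ ≠ 0

/-- Smooth sections of the `m`-th tensor power of the canonical bundle `K` of `J`. An element of `K ^ m` is
represented by the function `(v, w) ↦ g * τ (v, w) ^ m`, with `τ` of type (2,0). -/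
structure KSec (J : ACS X) (m : ℕ) where
  val : OpenPartialHomeomorph X V → V → V → V → ℂ
  loc : ∀ e ∈ atlas V X, ∀ u₀ ∈ e.target, ∃ (τ : V → V →L[ℝ] V →L[ℝ] ℂ) (g : V → ℂ),
    ContDiffAt ℝ ∞ τ u₀ ∧ ContDiffAt ℝ ∞ g u₀ ∧
      ∀ᶠ u in 𝓝 u₀, IsTop J e u (τ u) ∧ ∀ v w, val e u v w = g u * τ u v w ^ m
  compat : ∀ e ∈ atlas V X, ∀ e' ∈ atlas V X, ∀ u ∈ ov e e', ∀ v w,
    val e u v w = val e' (tr e e' u) (fderiv ℝ (tr e e') u v) (fderiv ℝ (tr e e') u w)

/-- `p` is a nondegenerate common zero of the sections `s` and `s'` of `K ^ m`, of sign `k`: locally `s = g τ ^ m`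
and `s' = g' τ ^ m`, and `k` is the sign of the Jacobian determinant of `(g, g')`, for the orientation of
`Ω ∧ Ω`. -/
def NondegZero (Ω : TwoForm X) (J : ACS X) (m : ℕ) (s s' : KSec J m) (p : X) (k : ℤ) : Prop :=
  ∃ e ∈ atlas V X, p ∈ e.source ∧ ∃ (τ : V → V →L[ℝ] V →L[ℝ] ℂ) (g g' : V → ℂ),
    ContDiffAt ℝ ∞ τ (e p) ∧ ContDiffAt ℝ ∞ g (e p) ∧ ContDiffAt ℝ ∞ g' (e p) ∧
    (∀ᶠ u in 𝓝 (e p), IsTop J e u (τ u) ∧
      ∀ v w, s.val e u v w = g u * τ u v w ^ m ∧ s'.val e u v w = g' u * τ u v w ^ m) ∧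
    g (e p) = 0 ∧ g' (e p) = 0 ∧
    (fderiv ℝ (fun u => (g u, g' u)) (e p)).det ≠ 0 ∧
    k = (SignType.sign ((fderiv ℝ (fun u => (g u, g' u)) (e p)).det *
      wed (Ω.val e (e p)) (Ω.val e (e p))) : ℤ)

/-- The Chern number `c₁²` is `k`: for some `m > 0` there are two sections of `K ^ m` with finitely many common
zeros, all nondegenerate, and the sum of their signs, which is `(m c₁)²`, is `m ^ 2 * k`. -/
def ChernCount (Ω : TwoForm X) (J : ACS X) (k : ℤ) : Prop :=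
  ∃ (m : ℕ) (s s' : KSec J m) (Z : Finset X) (σ : X → ℤ), 0 < m ∧
    (∀ p, p ∈ Z ↔ ∃ e ∈ atlas V X, p ∈ e.source ∧ ∀ v w, s.val e (e p) v w = 0 ∧ s'.val e (e p) v w = 0) ∧
    (∀ p ∈ Z, NondegZero Ω J m s s' p (σ p)) ∧
    ∑ p ∈ Z, σ p = (m : ℤ) ^ 2 * k

/-- There is a closed connected symplectic 4-manifold with `b⁺ ≥ 3`, `c₁² = 2388` and `c₂ = 792`, so
`c₁² > 3 c₂ = 2376`. -/
def Statement : Prop :=
  ∃ (X : Type) (_ : TopologicalSpace X) (_ : ChartedSpace V X),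
    IsManifold (modelWithCornersSelf ℝ V) ∞ X ∧ T2Space X ∧ CompactSpace X ∧ ConnectedSpace X ∧
    ∃ (Ω : TwoForm X) (J : ACS X), Ω.Closed ∧ Tames Ω J ∧ BPlusThree Ω ∧
      EulerCount X 792 ∧ ChernCount Ω J 2388

end

end Pool.Agent.Helper11.SX
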